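import Mathlib
import Pool.Agent.helper55.SINonInj2
import Pool.Agent.helper55.SICounter

set_option autoImplicit false

/-!
Stable images of endomorphisms of polynomial algebras as retracts: the full answer.

* Over a field `K` of characteristic `0`, the stable image of every endomorphism of `K[x, y]`
  is a retract of `K[x, y]`.
* Over every field `K`, for every `n ≥ 3`, some endomorphism of `K[x_1, ..., x_n]` has a stable
  image which is not a retract.
-/

namespace Pool.Agent.Results.MP_0f9f23_al.StableImageRetractIffTwo

open MvPolynomial

/-- The stable image of an endomorphism `φ` of a `K`-algebra `P`: the intersection of the images of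
the iterates `φ ^ k`, `k ≥ 1`. -/
def stableImage {K P : Type*} [CommRing K] [CommRing P] [Algebra K P] (φ : P →ₐ[K] P) :
    Subalgebra K P :=
  ⨅ k : ℕ, ⨅ _ : 1 ≤ k, (φ ^ k).range

/-- A subalgebra `R` of `P` is a retract of `P` if there is an algebra homomorphism `P → R` which
is the identity on `R`. -/
def IsRetract {K P : Type*} [CommRing K] [CommRing P] [Algebra K P] (R : Subalgebra K P) : Prop :=
  ∃ π : P →ₐ[K] R, ∀ r : R, π r = r

/-- For a field `K` of characteristic `0`, the stable image of every endomorphism of the polynomial
algebra in two variables over `K` is a retract; and for every field `K` and every `n ≥ 3`, some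
endomorphism of the polynomial algebra in `n` variables over `K` has a stable image which is not a
retract. -/
theorem result (K : Type*) [Field K] :
    (CharZero K → ∀ φ : MvPolynomial (Fin 2) K →ₐ[K] MvPolynomial (Fin 2) K,
      IsRetract (stableImage φ)) ∧
    (∀ n : ℕ, 3 ≤ n → ∃ φ : MvPolynomial (Fin n) K →ₐ[K] MvPolynomial (Fin n) K,
      ¬ IsRetract (stableImage φ)) := by
  constructor
  · intro _ φ
    exact Pool.Agent.Helper55.SI.retract_two φ
  · intro n hn
    exact Pool.Agent.Helper55.SICounter.exists_not_retract K n hn

end Pool.Agent.Results.MP_0f9f23_al.StableImageRetractIffTwo
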